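import Pool.Agent.TH125.Tor.Final

/-!
# Torsion in one-parameter families of abelian varieties

Let `K` be a number field and `A → U` an abelian scheme of relative dimension `g` over the part over
`K` of a dense open subset `U` of the projective line over `ℚ`. For a rational number `t` in `U` let
`tors t` be the order of the torsion subgroup of `A_t(K)`.

* For every `ε > 0` there is a bound `B` such that `tors t ≤ B` for all but `O(T ^ ε)` of the
  rational numbers `t` of height at most `T`.
* If the generic fibre has no isotrivial part, there is one bound `B` which is good for all `ε`: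
  the number of rational `t` of height at most `T` with `tors t > B` is `T ^ o(1)`.

Inputs (theorems, used as hypotheses on `U` and `tors`):

* `ReductionBound`: good reduction outside a set of residue classes of bounded size, injectivity of
  torsion of order prime to `q` under good reduction at `q`, Weil's bound;
* `UniformCount`: torsion points have height `≤ c (h(t) + 1)` (Silverman, Tate), the curves formed by
  the points of order `N` have degrees which tend to infinity and are polynomially bounded, and an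
  integral projective curve of degree `δ` has at most `c δ ^ 4 H ^ (2 / δ)` rational points of
  height at most `H` (Bombieri-Pila, Heath-Brown, Walsh; Castryck-Cluckers-Dittmann-Nguyen);
* `PrimaryBound`: Cadoret-Tamagawa;
* `FiniteForLargePrimes`: the curves of level `N` have genus at least `2` for large `N`
  (Ellenberg-Hall-Kowalski, Cadoret-Tamagawa) and Faltings' theorem.
-/

set_option autoImplicit false

namespace Pool.Agent.Results.MP_160b6c_nt.SparseInFamilies

open Pool.Agent.TH125.Tor

/-- For every prime `q > s` there is a set `R` of at most `d` points of the projective line over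
`ℤ / q` such that, if the reduction of `t` modulo `q` is not in `R`, all primes `N ≠ q` that divide
the torsion order at `t` are at most `c q ^ c`. -/
def ReductionBound (U : Set ℚ) (tors : ℚ → ℕ) : Prop :=
  ∃ s d c : ℕ, ∀ q : ℕ, q.Prime → s < q → ∃ R : Finset (Option (ZMod q)), R.card ≤ d ∧
    ∀ t ∈ U, red q t ∉ R → ∀ N : ℕ, N.Prime → N ≠ q → N ∣ tors t → N ≤ c * q ^ c

/-- For every `ε > 0` there are `N₀` and `C` such that for every prime `N ≥ N₀` and every `T ≥ 1`
at most `C N ^ C T ^ ε` parameters of height at most `T` have torsion order divisible by `N`. -/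
def UniformCount (U : Set ℚ) (tors : ℚ → ℕ) : Prop :=
  ∀ ε : ℝ, 0 < ε → ∃ N₀ C : ℕ, ∀ N : ℕ, N.Prime → N₀ ≤ N → ∀ T : ℕ, 1 ≤ T →
    AtMost (fun t => t ∈ U ∧ N ∣ tors t ∧ ht t ≤ T) (C * (N : ℝ) ^ C * (T : ℝ) ^ ε)

/-- For every prime `p` the `p`-part of the torsion order is bounded on `U`. -/
def PrimaryBound (U : Set ℚ) (tors : ℚ → ℕ) : Prop :=
  ∀ p : ℕ, p.Prime → ∃ B : ℕ, ∀ t ∈ U, ¬ p ^ B ∣ tors t

/-- For every sufficiently large prime `N` only finitely many parameters have torsion order
divisible by `N`. -/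
def FiniteForLargePrimes (U : Set ℚ) (tors : ℚ → ℕ) : Prop :=
  ∃ N₁ : ℕ, ∀ N : ℕ, N.Prime → N₁ ≤ N → {t : ℚ | t ∈ U ∧ N ∣ tors t}.Finite

/-- **Uniform boundedness of the torsion in one-parameter families, outside a sparse set.** -/
theorem result (U : Set ℚ) (tors : ℚ → ℕ) (h0 : ∀ t ∈ U, tors t ≠ 0)
    (h1 : ReductionBound U tors) (h2 : UniformCount U tors) (h3 : PrimaryBound U tors) :
    (∀ ε : ℝ, 0 < ε → ∃ (B : ℕ) (C : ℝ), ∀ T : ℕ, 1 ≤ T →
      AtMost (fun t => t ∈ U ∧ B < tors t ∧ ht t ≤ T) (C * (T : ℝ) ^ ε)) ∧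
    (FiniteForLargePrimes U tors → ∃ B : ℕ, ∀ ε : ℝ, 0 < ε → ∃ C : ℝ, ∀ T : ℕ, 1 ≤ T →
      AtMost (fun t => t ∈ U ∧ B < tors t ∧ ht t ≤ T) (C * (T : ℝ) ^ ε)) := by
  classical
  obtain ⟨s, d, c, h⟩ := h1
  choose! B hB using h3
  let R : (q : ℕ) → Finset (Option (ZMod q)) := fun q =>
    if hq : q.Prime ∧ s < q then Classical.choose (h q hq.1 hq.2) else ∅
  have hR : ∀ q : ℕ, (hq : q.Prime ∧ s < q) → (R q).card ≤ d ∧
      ∀ t ∈ U, red q t ∉ R q → ∀ N : ℕ, N.Prime → N ≠ q → N ∣ tors t → N ≤ c * q ^ c := by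
    intro q hq
    have hRq : R q = Classical.choose (h q hq.1 hq.2) := dif_pos hq
    rw [hRq]
    exact Classical.choose_spec (h q hq.1 hq.2)
  refine ⟨fun ε hε => ?_, fun hfin => ?_⟩
  · obtain ⟨N₀, C, hC⟩ := h2 (ε / 2) (by positivity)
    obtain ⟨C', h'⟩ := main U tors h0 s d c R (fun q h1 h2 => (hR q ⟨h1, h2⟩).1)
      (fun t ht q h1 h2 => (hR q ⟨h1, h2⟩).2 t ht) hε hC (N₁ := N₀)
      (fun N _ h4 h5 => absurd h5 (not_lt.2 h4)) hB
    exact ⟨_, C', h'⟩
  · obtain ⟨N₁, hN₁⟩ := hfin
    refine ⟨∏ p ∈ (Finset.range N₁).filter Nat.Prime, p ^ B p, fun ε hε => ?_⟩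
    obtain ⟨N₀, C, hC⟩ := h2 (ε / 2) (by positivity)
    exact main U tors h0 s d c R (fun q h1 h2 => (hR q ⟨h1, h2⟩).1)
      (fun t ht q h1 h2 => (hR q ⟨h1, h2⟩).2 t ht) hε hC (N₁ := N₁)
      (fun N h3 h4 _ => hN₁ N h3 h4) hB

end Pool.Agent.Results.MP_160b6c_nt.SparseInFamilies
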