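import Pool.Agent.TH125.Tor.Theta
import Pool.Agent.TH125.Tor.Final

/-!
# Torsion in families of abelian varieties over `P¹` over a number field: parameters in `K`

Let `K` be a number field and `A → U` an abelian scheme over a dense open subset `U` of the
projective line over `K`. For `t` in `U(K)` let `tors t` be the order of the torsion subgroup of
`A_t(K)`.

* For every `ε > 0` there is a bound `B` such that `tors t ≤ B` for all but `O(T ^ ε)` of the about
  `T ^ 2` elements `t` of `K` of height at most `T`.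
* If the generic fibre has no isotrivial part, one bound `B` is good for all `ε`.

Inputs (theorems, used as hypotheses on `U` and `tors`):

* `LogarithmicBound`: the order of the torsion of `A_t(K)` is at most a power of the height
  `log H(t)` (Masser 1987);
* `UniformCount`: torsion points have height `≤ c (h(t) + 1)` (Silverman, Tate), the curves formed by
  the points of order `N` have degrees which tend to infinity and are polynomially bounded, and an
  integral projective curve of degree `δ` has at most `c δ ^ c H ^ (2 / δ)` points over `K` of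
  height at most `H` (Castryck-Cluckers-Dittmann-Nguyen, Paredes-Sasyk);
* `PrimaryBound`: Cadoret-Tamagawa;
* `FiniteForLargePrimes`: the curves of level `N` have genus at least `2` for large `N`
  (Ellenberg-Hall-Kowalski, Cadoret-Tamagawa) and Faltings' theorem.
-/

set_option autoImplicit false

namespace Pool.Agent.Results.MP_160b6c_nt.TParameters

open Height Pool.Agent.TH125.Tor

/-- Every prime that divides the torsion order at `t` is at most a power of the logarithm of the
height of `t`. -/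
def LogarithmicBound {K : Type} [Field K] [NumberField K] (U : Set K) (tors : K → ℕ) : Prop :=
  ∃ c : ℕ, ∀ t ∈ U, ∀ N : ℕ, N.Prime → N ∣ tors t →
    (N : ℝ) ≤ c * (1 + Real.log (mulHeight₁ t)) ^ c

/-- For every `ε > 0` there are `N₀` and `C` such that for every prime `N ≥ N₀` and every `T ≥ 1`
at most `C N ^ C T ^ ε` parameters of height at most `T` have torsion order divisible by `N`. -/
def UniformCount {K : Type} [Field K] [NumberField K] (U : Set K) (tors : K → ℕ) : Prop :=
  ∀ ε : ℝ, 0 < ε → ∃ N₀ C : ℕ, ∀ N : ℕ, N.Prime → N₀ ≤ N → ∀ T : ℝ, 1 ≤ T →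
    ({t : K | mulHeight₁ t ≤ T ∧ t ∈ U ∧ N ∣ tors t}.ncard : ℝ) ≤ C * (N : ℝ) ^ C * T ^ ε

/-- For every prime `p` the `p`-part of the torsion order is bounded on `U`. -/
def PrimaryBound {K : Type} [Field K] (U : Set K) (tors : K → ℕ) : Prop :=
  ∀ p : ℕ, p.Prime → ∃ B : ℕ, ∀ t ∈ U, ¬ p ^ B ∣ tors t

/-- For every sufficiently large prime `N` only finitely many parameters have torsion order
divisible by `N`. -/
def FiniteForLargePrimes {K : Type} [Field K] (U : Set K) (tors : K → ℕ) : Prop :=
  ∃ N₁ : ℕ, ∀ N : ℕ, N.Prime → N₁ ≤ N → {t : K | t ∈ U ∧ N ∣ tors t}.Finite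

/-- **Uniform boundedness of the torsion in one-parameter families over a number field, outside a
sparse set of parameters.** -/
theorem result {K : Type} [Field K] [NumberField K] (U : Set K) (tors : K → ℕ)
    (h0 : ∀ t ∈ U, tors t ≠ 0) (h1 : LogarithmicBound U tors) (h2 : UniformCount U tors)
    (h3 : PrimaryBound U tors) :
    (∀ ε : ℝ, 0 < ε → ∃ (B : ℕ) (C : ℝ), ∀ T : ℝ, 1 ≤ T →
      ({t : K | mulHeight₁ t ≤ T ∧ t ∈ U ∧ B < tors t}.ncard : ℝ) ≤ C * T ^ ε) ∧
    (FiniteForLargePrimes U tors → ∃ B : ℕ, ∀ ε : ℝ, 0 < ε → ∃ C : ℝ, ∀ T : ℝ, 1 ≤ T →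
      ({t : K | mulHeight₁ t ≤ T ∧ t ∈ U ∧ B < tors t}.ncard : ℝ) ≤ C * T ^ ε) := by
  classical
  obtain ⟨c, hc⟩ := h1
  choose! B hB using h3
  -- a torsion order without prime factors `≥ M` is bounded
  have hsub : ∀ (M : ℕ) (T : ℝ), {t : K | mulHeight₁ t ≤ T ∧ t ∈ U ∧
      ∏ p ∈ (Finset.range M).filter Nat.Prime, p ^ B p < tors t} ⊆
      {t : K | mulHeight₁ t ≤ T ∧ ∃ N : ℕ, N.Prime ∧ M ≤ N ∧ (t ∈ U ∧ N ∣ tors t)} := by
    rintro M T t ⟨hT, hU, hBt⟩
    refine ⟨hT, ?_⟩
    by_contra hcon
    push Not at hcon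
    exact absurd (le_of_primes (h0 t hU) (fun p hp => hB p hp t hU) (M := M)
      (fun p hp h => hcon p hp h hU)) (not_le.2 hBt)
  have hfinT : ∀ T : ℝ, {x : K | mulHeight₁ x ≤ T}.Finite := fun T =>
    NumberField.finite_setOfPred_mulHeight₁_le K T
  refine ⟨fun ε hε => ?_, fun hfin => ?_⟩
  · obtain ⟨N₀, C, hC⟩ := h2 (ε / 2) (by positivity)
    obtain ⟨D, hD0, hD⟩ := large_part c C (θ := 0) le_rfl hε
    refine ⟨∏ p ∈ (Finset.range N₀).filter Nat.Prime, p ^ B p, D, fun T hT => ?_⟩
    have h4 := hD {x : K | mulHeight₁ x ≤ T} (hfinT T) (fun t N => t ∈ U ∧ N ∣ tors t) N₀ T hT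
      (by
        rintro t ht N hN ⟨hU, hNt⟩
        refine (hc t hU N hN hNt).trans ?_
        refine mul_le_mul_of_nonneg_left ?_ (by positivity)
        have h5 : Real.log (mulHeight₁ t) ≤ Real.log T :=
          Real.log_le_log (by linarith [one_le_mulHeight₁ t]) ht
        have h6 : 0 ≤ Real.log (mulHeight₁ t) := Real.log_nonneg (one_le_mulHeight₁ t)
        exact pow_le_pow_left₀ (by positivity) (by linarith) c)
      (by
        intro N hN hN0
        rw [zero_add]
        exact hC N hN hN0 T hT)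
    rw [zero_add] at h4
    refine le_trans ?_ h4
    exact_mod_cast Set.ncard_le_ncard (hsub N₀ T) ((hfinT T).subset fun x hx => hx.1)
  · obtain ⟨N₁, hN₁⟩ := hfin
    refine ⟨∏ p ∈ (Finset.range N₁).filter Nat.Prime, p ^ B p, fun ε hε => ?_⟩
    obtain ⟨C, hC⟩ := union_bound (fun t : K => mulHeight₁ t) one_le_mulHeight₁ hfinT
      (fun t N => t ∈ U ∧ N ∣ tors t) N₁ ⟨c, fun t N hN h => hc t h.1 N hN h.2⟩ h2 hN₁ ε hε
    refine ⟨C, fun T hT => le_trans ?_ (hC T hT)⟩
    exact_mod_cast Set.ncard_le_ncard (hsub N₁ T) ((hfinT T).subset fun x hx => hx.1)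

end Pool.Agent.Results.MP_160b6c_nt.TParameters
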